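import Pool.Agent.H29.EGZ.S.QT

/-!
# Check of the parallelograms, part 5
-/

set_option autoImplicit false

namespace Pool.Agent.H29.EGZ

theorem chk_qt5 : allL (chkQ E1 E2) qt5 = true := by decide +kernel

end Pool.Agent.H29.EGZ
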