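import Pool.Agent.H29.EGZ.S.StD
import Pool.Agent.H29.EGZ.S.QC0
import Pool.Agent.H29.EGZ.S.QC1
import Pool.Agent.H29.EGZ.S.QC2
import Pool.Agent.H29.EGZ.S.QC3
import Pool.Agent.H29.EGZ.S.QC4
import Pool.Agent.H29.EGZ.S.QC5

/-!
# The induction steps
-/

set_option autoImplicit false

namespace Pool.Agent.H29.EGZ

/-- the theorem of a stage : base, seventh point with its digit, forbidden values -/
def StageOK (B : List ℕ) (v7 a7 : ℕ) (Q : List (ℕ × ℕ × ℕ × ℕ × ℕ)) : Prop :=
  ∀ y : W5 → (Fin 5 → ZMod 9), Norm y B v7 a7 → Forb y Q → False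

lemma chk_all : ∀ q ∈ qtAll, chkQ E1 E2 q = true := by
  intro q hq
  simp only [qtAll, List.mem_append] at hq
  have h0 := chk_qt0
  have h1 := chk_qt1
  have h2 := chk_qt2
  have h3 := chk_qt3
  have h4 := chk_qt4
  have h5 := chk_qt5
  rw [allL_iff] at h0 h1 h2 h3 h4 h5
  rcases hq with ((((hq | hq) | hq) | hq) | hq) | hq
  · exact h0 q hq
  · exact h1 q hq
  · exact h2 q hq
  · exact h3 q hq
  · exact h4 q hq
  · exact h5 q hq

lemma istep0 (h : StageOK [154, 5, 10, 207, 238] 212 179 Qs0)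
    (hP : ∀ s < 0, Excl (look8 E1 s)) : Excl (look8 E1 0) :=
  stage_step sw chk_all (by norm_num) ok0.2 ok0.1 (by decide +kernel) (by decide +kernel) h hP

lemma istep1 (h : StageOK [10, 154, 212, 178, 119] 5 41 Qs1)
    (hP : ∀ s < 1, Excl (look8 E1 s)) : Excl (look8 E1 1) :=
  stage_step sw chk_all (by norm_num) ok1.2 ok1.1 (by decide +kernel) (by decide +kernel) h hP

lemma istep2 (h : StageOK [154, 212, 10, 207, 13] 5 120 Qs2)
    (hP : ∀ s < 2, Excl (look8 E1 s)) : Excl (look8 E1 2) :=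
  stage_step sw chk_all (by norm_num) ok2.2 ok2.1 (by decide +kernel) (by decide +kernel) h hP

lemma istep3 (h : StageOK [10, 5, 154, 119, 13] 212 207 Qs3)
    (hP : ∀ s < 3, Excl (look8 E1 s)) : Excl (look8 E1 3) :=
  stage_step sw chk_all (by norm_num) ok3.2 ok3.1 (by decide +kernel) (by decide +kernel) h hP

lemma istep4 (h : StageOK [154, 212, 10, 13, 207] 5 90 Qs4)
    (hP : ∀ s < 4, Excl (look8 E1 s)) : Excl (look8 E1 4) :=
  stage_step sw chk_all (by norm_num) ok4.2 ok4.1 (by decide +kernel) (by decide +kernel) h hP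

lemma istep5 (h : StageOK [212, 154, 5, 223, 23] 10 133 Qs5)
    (hP : ∀ s < 5, Excl (look8 E1 s)) : Excl (look8 E1 5) :=
  stage_step sw chk_all (by norm_num) ok5.2 ok5.1 (by decide +kernel) (by decide +kernel) h hP

lemma istep6 (h : StageOK [10, 154, 5, 23, 53] 212 187 Qs6)
    (hP : ∀ s < 6, Excl (look8 E1 s)) : Excl (look8 E1 6) :=
  stage_step sw chk_all (by norm_num) ok6.2 ok6.1 (by decide +kernel) (by decide +kernel) h hP

lemma istep7 (h : StageOK [5, 212, 154, 238, 140] 10 111 Qs7)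
    (hP : ∀ s < 7, Excl (look8 E1 s)) : Excl (look8 E1 7) :=
  stage_step sw chk_all (by norm_num) ok7.2 ok7.1 (by decide +kernel) (by decide +kernel) h hP

lemma istep8 (h : StageOK [5, 10, 212, 198, 140] 154 228 Qs8)
    (hP : ∀ s < 8, Excl (look8 E1 s)) : Excl (look8 E1 8) :=
  stage_step sw chk_all (by norm_num) ok8.2 ok8.1 (by decide +kernel) (by decide +kernel) h hP

lemma istep9 (h : StageOK [10, 212, 154, 169, 50] 5 147 Qs9)
    (hP : ∀ s < 9, Excl (look8 E1 s)) : Excl (look8 E1 9) :=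
  stage_step sw chk_all (by norm_num) ok9.2 ok9.1 (by decide +kernel) (by decide +kernel) h hP

lemma istep10 (h : StageOK [5, 212, 154, 83, 145] 10 151 Qs10)
    (hP : ∀ s < 10, Excl (look8 E1 s)) : Excl (look8 E1 10) :=
  stage_step sw chk_all (by norm_num) ok10.2 ok10.1 (by decide +kernel) (by decide +kernel) h hP

lemma istep11 (h : StageOK [10, 5, 212, 125, 208] 154 200 Qs11)
    (hP : ∀ s < 11, Excl (look8 E1 s)) : Excl (look8 E1 11) :=
  stage_step sw chk_all (by norm_num) ok11.2 ok11.1 (by decide +kernel) (by decide +kernel) h hP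

lemma istep12 (h : StageOK [154, 5, 212, 43, 208] 10 83 Qs12)
    (hP : ∀ s < 12, Excl (look8 E1 s)) : Excl (look8 E1 12) :=
  stage_step sw chk_all (by norm_num) ok12.2 ok12.1 (by decide +kernel) (by decide +kernel) h hP

lemma istep13 (h : StageOK [10, 154, 212, 223, 7] 5 116 Qs13)
    (hP : ∀ s < 13, Excl (look8 E1 s)) : Excl (look8 E1 13) :=
  stage_step sw chk_all (by norm_num) ok13.2 ok13.1 (by decide +kernel) (by decide +kernel) h hP

lemma istep14 (h : StageOK [10, 212, 154, 39, 145] 5 113 Qs14)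
    (hP : ∀ s < 14, Excl (look8 E1 s)) : Excl (look8 E1 14) :=
  stage_step sw chk_all (by norm_num) ok14.2 ok14.1 (by decide +kernel) (by decide +kernel) h hP

lemma istep15 (h : StageOK [10, 5, 154, 121, 23] 212 216 Qs15)
    (hP : ∀ s < 15, Excl (look8 E1 s)) : Excl (look8 E1 15) :=
  stage_step sw chk_all (by norm_num) ok15.2 ok15.1 (by decide +kernel) (by decide +kernel) h hP

lemma istep16 (h : StageOK [5, 212, 154, 208, 12] 10 81 Qs16)
    (hP : ∀ s < 16, Excl (look8 E1 s)) : Excl (look8 E1 16) :=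
  stage_step sw chk_all (by norm_num) ok16.2 ok16.1 (by decide +kernel) (by decide +kernel) h hP

lemma istep17 (h : StageOK [154, 5, 10, 134, 8] 212 215 Qs17)
    (hP : ∀ s < 17, Excl (look8 E1 s)) : Excl (look8 E1 17) :=
  stage_step sw chk_all (by norm_num) ok17.2 ok17.1 (by decide +kernel) (by decide +kernel) h hP

lemma istep18 (h : StageOK [10, 154, 5, 50, 13] 212 106 Qs18)
    (hP : ∀ s < 18, Excl (look8 E1 s)) : Excl (look8 E1 18) :=
  stage_step sw chk_all (by norm_num) ok18.2 ok18.1 (by decide +kernel) (by decide +kernel) h hP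

lemma istep19 (h : StageOK [212, 5, 154, 140, 162] 10 53 Qs19)
    (hP : ∀ s < 19, Excl (look8 E1 s)) : Excl (look8 E1 19) :=
  stage_step sw chk_all (by norm_num) ok19.2 ok19.1 (by decide +kernel) (by decide +kernel) h hP

lemma istep20 (h : StageOK [212, 5, 10, 207, 23] 154 237 Qs20)
    (hP : ∀ s < 20, Excl (look8 E1 s)) : Excl (look8 E1 20) :=
  stage_step sw chk_all (by norm_num) ok20.2 ok20.1 (by decide +kernel) (by decide +kernel) h hP

lemma istep21 (h : StageOK [5, 10, 212, 145, 125] 154 170 Qs21)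
    (hP : ∀ s < 21, Excl (look8 E1 s)) : Excl (look8 E1 21) :=
  stage_step sw chk_all (by norm_num) ok21.2 ok21.1 (by decide +kernel) (by decide +kernel) h hP

lemma istep22 (h : StageOK [212, 10, 154, 7, 62] 5 96 Qs22)
    (hP : ∀ s < 22, Excl (look8 E1 s)) : Excl (look8 E1 22) :=
  stage_step sw chk_all (by norm_num) ok22.2 ok22.1 (by decide +kernel) (by decide +kernel) h hP

lemma istep23 (h : StageOK [212, 5, 10, 140, 223] 154 19 Qs23)
    (hP : ∀ s < 23, Excl (look8 E1 s)) : Excl (look8 E1 23) :=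
  stage_step sw chk_all (by norm_num) ok23.2 ok23.1 (by decide +kernel) (by decide +kernel) h hP

lemma istep24 (h : StageOK [154, 212, 5, 208, 178] 10 17 Qs24)
    (hP : ∀ s < 24, Excl (look8 E1 s)) : Excl (look8 E1 24) :=
  stage_step sw chk_all (by norm_num) ok24.2 ok24.1 (by decide +kernel) (by decide +kernel) h hP

lemma istep25 (h : StageOK [5, 154, 10, 62, 161] 212 77 Qs25)
    (hP : ∀ s < 25, Excl (look8 E1 s)) : Excl (look8 E1 25) :=
  stage_step sw chk_all (by norm_num) ok25.2 ok25.1 (by decide +kernel) (by decide +kernel) h hP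

lemma istep26 (h : StageOK [5, 154, 212, 145, 164] 10 98 Qs26)
    (hP : ∀ s < 26, Excl (look8 E1 s)) : Excl (look8 E1 26) :=
  stage_step sw chk_all (by norm_num) ok26.2 ok26.1 (by decide +kernel) (by decide +kernel) h hP

lemma istep27 (h : StageOK [212, 154, 10, 164, 43] 5 63 Qs27)
    (hP : ∀ s < 27, Excl (look8 E1 s)) : Excl (look8 E1 27) :=
  stage_step sw chk_all (by norm_num) ok27.2 ok27.1 (by decide +kernel) (by decide +kernel) h hP

lemma istep28 (h : StageOK [5, 154, 212, 62, 145] 10 86 Qs28)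
    (hP : ∀ s < 28, Excl (look8 E1 s)) : Excl (look8 E1 28) :=
  stage_step sw chk_all (by norm_num) ok28.2 ok28.1 (by decide +kernel) (by decide +kernel) h hP

lemma istep29 (h : StageOK [5, 154, 212, 174, 172] 10 93 Qs29)
    (hP : ∀ s < 29, Excl (look8 E1 s)) : Excl (look8 E1 29) :=
  stage_step sw chk_all (by norm_num) ok29.2 ok29.1 (by decide +kernel) (by decide +kernel) h hP

lemma istep30 (h : StageOK [154, 10, 212, 208, 125] 5 84 Qs30)
    (hP : ∀ s < 30, Excl (look8 E1 s)) : Excl (look8 E1 30) :=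
  stage_step sw chk_all (by norm_num) ok30.2 ok30.1 (by decide +kernel) (by decide +kernel) h hP

lemma istep31 (h : StageOK [5, 10, 154, 13, 223] 212 166 Qs31)
    (hP : ∀ s < 31, Excl (look8 E1 s)) : Excl (look8 E1 31) :=
  stage_step sw chk_all (by norm_num) ok31.2 ok31.1 (by decide +kernel) (by decide +kernel) h hP

lemma istep32 (h : StageOK [5, 154, 212, 26, 208] 10 138 Qs32)
    (hP : ∀ s < 32, Excl (look8 E1 s)) : Excl (look8 E1 32) :=
  stage_step sw chk_all (by norm_num) ok32.2 ok32.1 (by decide +kernel) (by decide +kernel) h hP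

lemma istep33 (h : StageOK [5, 154, 212, 208, 62] 10 140 Qs33)
    (hP : ∀ s < 33, Excl (look8 E1 s)) : Excl (look8 E1 33) :=
  stage_step sw chk_all (by norm_num) ok33.2 ok33.1 (by decide +kernel) (by decide +kernel) h hP

lemma istep34 (h : StageOK [212, 10, 5, 145, 110] 154 174 Qs34)
    (hP : ∀ s < 34, Excl (look8 E1 s)) : Excl (look8 E1 34) :=
  stage_step sw chk_all (by norm_num) ok34.2 ok34.1 (by decide +kernel) (by decide +kernel) h hP

lemma istep35 (h : StageOK [10, 5, 154, 23, 178] 212 203 Qs35)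
    (hP : ∀ s < 35, Excl (look8 E1 s)) : Excl (look8 E1 35) :=
  stage_step sw chk_all (by norm_num) ok35.2 ok35.1 (by decide +kernel) (by decide +kernel) h hP

lemma istep36 (h : StageOK [154, 5, 10, 13, 43] 212 189 Qs36)
    (hP : ∀ s < 36, Excl (look8 E1 s)) : Excl (look8 E1 36) :=
  stage_step sw chk_all (by norm_num) ok36.2 ok36.1 (by decide +kernel) (by decide +kernel) h hP

lemma istep37 (h : StageOK [5, 154, 212, 223, 23] 10 150 Qs37)
    (hP : ∀ s < 37, Excl (look8 E1 s)) : Excl (look8 E1 37) :=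
  stage_step sw chk_all (by norm_num) ok37.2 ok37.1 (by decide +kernel) (by decide +kernel) h hP

lemma istep38 (h : StageOK [212, 10, 154, 121, 23] 5 12 Qs38)
    (hP : ∀ s < 38, Excl (look8 E1 s)) : Excl (look8 E1 38) :=
  stage_step sw chk_all (by norm_num) ok38.2 ok38.1 (by decide +kernel) (by decide +kernel) h hP

lemma istep39 (h : StageOK [212, 154, 5, 140, 43] 10 5 Qs39)
    (hP : ∀ s < 39, Excl (look8 E1 s)) : Excl (look8 E1 39) :=
  stage_step sw chk_all (by norm_num) ok39.2 ok39.1 (by decide +kernel) (by decide +kernel) h hP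

lemma istep40 (h : StageOK [212, 154, 10, 23, 162] 5 122 Qs40)
    (hP : ∀ s < 40, Excl (look8 E1 s)) : Excl (look8 E1 40) :=
  stage_step sw chk_all (by norm_num) ok40.2 ok40.1 (by decide +kernel) (by decide +kernel) h hP

lemma istep41 (h : StageOK [10, 154, 212, 145, 124] 5 124 Qs41)
    (hP : ∀ s < 41, Excl (look8 E1 s)) : Excl (look8 E1 41) :=
  stage_step sw chk_all (by norm_num) ok41.2 ok41.1 (by decide +kernel) (by decide +kernel) h hP

lemma istep42 (h : StageOK [212, 154, 10, 153, 140] 5 158 Qs42)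
    (hP : ∀ s < 42, Excl (look8 E1 s)) : Excl (look8 E1 42) :=
  stage_step sw chk_all (by norm_num) ok42.2 ok42.1 (by decide +kernel) (by decide +kernel) h hP

lemma istep43 (h : StageOK [10, 212, 5, 207, 223] 154 27 Qs43)
    (hP : ∀ s < 43, Excl (look8 E1 s)) : Excl (look8 E1 43) :=
  stage_step sw chk_all (by norm_num) ok43.2 ok43.1 (by decide +kernel) (by decide +kernel) h hP

lemma istep44 (h : StageOK [5, 10, 154, 172, 12] 212 73 Qs44)
    (hP : ∀ s < 44, Excl (look8 E1 s)) : Excl (look8 E1 44) :=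
  stage_step sw chk_all (by norm_num) ok44.2 ok44.1 (by decide +kernel) (by decide +kernel) h hP

lemma istep45 (h : StageOK [154, 212, 5, 164, 140] 10 199 Qs45)
    (hP : ∀ s < 45, Excl (look8 E1 s)) : Excl (look8 E1 45) :=
  stage_step sw chk_all (by norm_num) ok45.2 ok45.1 (by decide +kernel) (by decide +kernel) h hP

lemma istep46 (h : StageOK [5, 154, 212, 140, 223] 10 88 Qs46)
    (hP : ∀ s < 46, Excl (look8 E1 s)) : Excl (look8 E1 46) :=
  stage_step sw chk_all (by norm_num) ok46.2 ok46.1 (by decide +kernel) (by decide +kernel) h hP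

lemma istep47 (h : StageOK [5, 10, 212, 207, 26] 154 44 Qs47)
    (hP : ∀ s < 47, Excl (look8 E1 s)) : Excl (look8 E1 47) :=
  stage_step sw chk_all (by norm_num) ok47.2 ok47.1 (by decide +kernel) (by decide +kernel) h hP

lemma istep48 (h : StageOK [10, 154, 212, 161, 52] 5 117 Qs48)
    (hP : ∀ s < 48, Excl (look8 E1 s)) : Excl (look8 E1 48) :=
  stage_step sw chk_all (by norm_num) ok48.2 ok48.1 (by decide +kernel) (by decide +kernel) h hP

end Pool.Agent.H29.EGZ
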