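import Pool.Agent.H29.EGZ.S.Cov
import Pool.Agent.H29.EGZ.S.St
import Pool.Agent.H21.EGZ.St0
import Pool.Agent.H21.EGZ.St1
import Pool.Agent.H21.EGZ.St2
import Pool.Agent.H21.EGZ.St3
import Pool.Agent.H21.EGZ.St4
import Pool.Agent.H21.EGZ.St5
import Pool.Agent.H21.EGZ.St6
import Pool.Agent.H21.EGZ.St7
import Pool.Agent.H21.EGZ.St8
import Pool.Agent.H21.EGZ.St9
import Pool.Agent.H21.EGZ.St10
import Pool.Agent.H21.EGZ.St11
import Pool.Agent.H21.EGZ.St12
import Pool.Agent.H21.EGZ.St13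
import Pool.Agent.H21.EGZ.St14
import Pool.Agent.H21.EGZ.St15
import Pool.Agent.H21.EGZ.St16
import Pool.Agent.H21.EGZ.St17
import Pool.Agent.H21.EGZ.St18
import Pool.Agent.H21.EGZ.St19
import Pool.Agent.H21.EGZ.St20
import Pool.Agent.H21.EGZ.St21
import Pool.Agent.H21.EGZ.St22
import Pool.Agent.H21.EGZ.St23
import Pool.Agent.H21.EGZ.St24
import Pool.Agent.H21.EGZ.St25
import Pool.Agent.H21.EGZ.St26
import Pool.Agent.H21.EGZ.St27
import Pool.Agent.H21.EGZ.St28
import Pool.Agent.H21.EGZ.St29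
import Pool.Agent.H21.EGZ.St30
import Pool.Agent.H21.EGZ.St31
import Pool.Agent.H21.EGZ.St32
import Pool.Agent.H21.EGZ.St33
import Pool.Agent.H21.EGZ.St34
import Pool.Agent.H21.EGZ.St35
import Pool.Agent.H21.EGZ.St36
import Pool.Agent.H21.EGZ.St37
import Pool.Agent.H21.EGZ.St38
import Pool.Agent.H21.EGZ.St39
import Pool.Agent.H21.EGZ.St40
import Pool.Agent.H21.EGZ.St41
import Pool.Agent.H21.EGZ.St42
import Pool.Agent.H21.EGZ.St43
import Pool.Agent.H21.EGZ.St44
import Pool.Agent.H21.EGZ.St45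
import Pool.Agent.H21.EGZ.St46
import Pool.Agent.H21.EGZ.St47
import Pool.Agent.H21.EGZ.St48

/-!
# All the classes are excluded, and the cap has no good lift
-/

set_option autoImplicit false

namespace Pool.Agent.H29.EGZ

lemma excl_step (s : ℕ) (hs : s < 49) (hP : ∀ t < s, Excl (look8 E1 t)) : Excl (look8 E1 s) := by
  interval_cases s
  · exact istep0 Pool.Agent.H21.EGZ.stage0 hP
  · exact istep1 Pool.Agent.H21.EGZ.stage1 hP
  · exact istep2 Pool.Agent.H21.EGZ.stage2 hP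
  · exact istep3 Pool.Agent.H21.EGZ.stage3 hP
  · exact istep4 Pool.Agent.H21.EGZ.stage4 hP
  · exact istep5 Pool.Agent.H21.EGZ.stage5 hP
  · exact istep6 Pool.Agent.H21.EGZ.stage6 hP
  · exact istep7 Pool.Agent.H21.EGZ.stage7 hP
  · exact istep8 Pool.Agent.H21.EGZ.stage8 hP
  · exact istep9 Pool.Agent.H21.EGZ.stage9 hP
  · exact istep10 Pool.Agent.H21.EGZ.stage10 hP
  · exact istep11 Pool.Agent.H21.EGZ.stage11 hP
  · exact istep12 Pool.Agent.H21.EGZ.stage12 hP
  · exact istep13 Pool.Agent.H21.EGZ.stage13 hP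
  · exact istep14 Pool.Agent.H21.EGZ.stage14 hP
  · exact istep15 Pool.Agent.H21.EGZ.stage15 hP
  · exact istep16 Pool.Agent.H21.EGZ.stage16 hP
  · exact istep17 Pool.Agent.H21.EGZ.stage17 hP
  · exact istep18 Pool.Agent.H21.EGZ.stage18 hP
  · exact istep19 Pool.Agent.H21.EGZ.stage19 hP
  · exact istep20 Pool.Agent.H21.EGZ.stage20 hP
  · exact istep21 Pool.Agent.H21.EGZ.stage21 hP
  · exact istep22 Pool.Agent.H21.EGZ.stage22 hP
  · exact istep23 Pool.Agent.H21.EGZ.stage23 hP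
  · exact istep24 Pool.Agent.H21.EGZ.stage24 hP
  · exact istep25 Pool.Agent.H21.EGZ.stage25 hP
  · exact istep26 Pool.Agent.H21.EGZ.stage26 hP
  · exact istep27 Pool.Agent.H21.EGZ.stage27 hP
  · exact istep28 Pool.Agent.H21.EGZ.stage28 hP
  · exact istep29 Pool.Agent.H21.EGZ.stage29 hP
  · exact istep30 Pool.Agent.H21.EGZ.stage30 hP
  · exact istep31 Pool.Agent.H21.EGZ.stage31 hP
  · exact istep32 Pool.Agent.H21.EGZ.stage32 hP
  · exact istep33 Pool.Agent.H21.EGZ.stage33 hP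
  · exact istep34 Pool.Agent.H21.EGZ.stage34 hP
  · exact istep35 Pool.Agent.H21.EGZ.stage35 hP
  · exact istep36 Pool.Agent.H21.EGZ.stage36 hP
  · exact istep37 Pool.Agent.H21.EGZ.stage37 hP
  · exact istep38 Pool.Agent.H21.EGZ.stage38 hP
  · exact istep39 Pool.Agent.H21.EGZ.stage39 hP
  · exact istep40 Pool.Agent.H21.EGZ.stage40 hP
  · exact istep41 Pool.Agent.H21.EGZ.stage41 hP
  · exact istep42 Pool.Agent.H21.EGZ.stage42 hP
  · exact istep43 Pool.Agent.H21.EGZ.stage43 hP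
  · exact istep44 Pool.Agent.H21.EGZ.stage44 hP
  · exact istep45 Pool.Agent.H21.EGZ.stage45 hP
  · exact istep46 Pool.Agent.H21.EGZ.stage46 hP
  · exact istep47 Pool.Agent.H21.EGZ.stage47 hP
  · exact istep48 Pool.Agent.H21.EGZ.stage48 hP

theorem excl_all (s : ℕ) : s < 49 → Excl (look8 E1 s) := by
  induction s using Nat.strong_induction_on with
  | _ s ih => exact fun hs => excl_step s hs fun t ht => ih t ht (lt_trans ht hs)

/-- the standard cap has no good lift -/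
theorem no_good_lift (x : W5 → (Fin 5 → ZMod 9)) : ¬ GoodLift cap45 x :=
  no_lift_of (fun s hs => excl_all s hs) x

end Pool.Agent.H29.EGZ
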