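import Pool.Agent.H29.EGZ.S.St

/-!
# The covering
-/

set_option autoImplicit false

namespace Pool.Agent.H29.EGZ

/-- the base parallelogram -/
def qbase : QD :=
  ⟨5, 10, 154, 212, (282817489141, 282817489141, 0), (720918875220, 720918875220, 17), (197319228124, 197319228124, 79), (228965214491, 228965214491, 128),
    0x413f5a983f595da4925c8cc33f3f6e99503f3f3f53403fd93f8362543f9b3f123f893f3f86476b4de297a03f3f9cd7cf3f3fe3456fc62d4a9f43a7a9573fe1cb3f3fda3f3fc73fa54b3f9ad3e5853fd53f3f421b3f963fa63f3f81a34f2f4eca3f3fdc488a2b3fa23fe08dc13f1751df65263f18e73f3f93843f603fc0678b63c490273f3f3f6a462ce43f019e1944a83f4c91553f3fdd138e3fcc3f3fc89d3fd13f3f3f0311a1090a3f250b82d0642ac52395613f87243f2120c2803f3f3f043f061dde1a16883f5f00d43f5e3f22940c10151c1e2e1fce3f3f303f2802293f143f3f8fcd3f3f053f083f3f0f3f0e073f0d3f⟩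

lemma qbase_mem : qbase ∈ qtAll :=
  List.mem_append_left _ (List.mem_append_left _ (List.mem_append_left _
    (List.mem_append_left _ (List.mem_append_left _ List.mem_cons_self))))

/-- if all the classes are excluded, the cap has no good lift -/
theorem no_lift_of (hP : ∀ s < 49, Excl (look8 E1 s)) (x : W5 → (Fin 5 → ZMod 9)) :
    ¬ GoodLift cap45 x :=
  no_lift (q := qbase) sw (chk_all _ qbase_mem) (by decide +kernel) rfl rfl rfl rfl hP x

end Pool.Agent.H29.EGZ
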