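import Mathlib
import Pool.Agent.H29.EGZ.Trans
import Pool.Agent.H29.EGZ.B.Img

/-!
# Parallelograms: values `e(b)`, equivariance, exclusion of values
-/

set_option autoImplicit false

namespace Pool.Agent.H29.EGZ

open Finset Matrix

/-- the relation of the parallelogram `a + b = c + d` -/
def par (a b c d : W5) : W5 → ℕ := fun u =>
  (if u = a then 1 else 0) + (if u = b then 1 else 0) + (if u = c then 2 else 0) +
    (if u = d then 2 else 0)

lemma sum_ite_smul {β : Type*} [AddCommMonoid β] {D : Finset W5} {a : W5} (ha : a ∈ D) (k : ℕ)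
    (F : W5 → β) : ∑ u ∈ D, (if u = a then k else 0) • F u = k • F a := by
  have : ∀ u ∈ D, (if u = a then k else 0) • F u = if u = a then k • F u else 0 := by
    intro u _
    split_ifs <;> simp
  rw [Finset.sum_congr rfl this, Finset.sum_ite_eq' D a (fun u => k • F u), if_pos ha]

lemma sum_par {β : Type*} [AddCommMonoid β] {D : Finset W5} {a b c d : W5} (ha : a ∈ D)
    (hb : b ∈ D) (hc : c ∈ D) (hd : d ∈ D) (F : W5 → β) :
    ∑ u ∈ D, par a b c d u • F u = F a + F b + 2 • F c + 2 • F d := by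
  unfold par
  simp only [add_smul, Finset.sum_add_distrib]
  rw [sum_ite_smul ha, sum_ite_smul hb, sum_ite_smul hc, sum_ite_smul hd, one_smul, one_smul]

lemma par_six {D : Finset W5} {a b c d : W5} (ha : a ∈ D)
    (hb : b ∈ D) (hc : c ∈ D) (hd : d ∈ D) : ∑ u ∈ D, par a b c d u = 6 := by
  have h := sum_par ha hb hc hd (fun _ => (1 : ℕ))
  simpa using h

lemma three_W5 (z : W5) : 3 • z = 0 := three_smul_W5 z

lemma par_zero {D : Finset W5} {a b c d : W5} (ha : a ∈ D)
    (hb : b ∈ D) (hc : c ∈ D) (hd : d ∈ D) (h : a + b = c + d) :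
    ∑ u ∈ D, par a b c d u • u = 0 := by
  rw [sum_par ha hb hc hd (fun u => u), h]
  have := three_W5 (c + d)
  rw [← this]
  abel

lemma par_rel {D : Finset W5} {a b c d : W5} (ha : a ∈ D)
    (hb : b ∈ D) (hc : c ∈ D) (hd : d ∈ D) (h : a + b = c + d)
    (hab : a ≠ b) (hcd : c ≠ d) : Rel D (par a b c d) where
  le u _ := by
    unfold par
    have h1 : ¬ (u = a ∧ u = b) := fun h => hab (h.1 ▸ h.2)
    have h2 : ¬ (u = c ∧ u = d) := fun h => hcd (h.1 ▸ h.2)
    split_ifs <;> first | omega | exact absurd ⟨‹_›, ‹_›⟩ h1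
  six := par_six ha hb hc hd
  zero := par_zero ha hb hc hd h

lemma par_comm (a b c d : W5) : par b a d c = par a b c d := by
  funext u
  unfold par
  omega

/-- the value of the opposite relation -/
lemma ev_swap {D : Finset W5} {x : W5 → (Fin 5 → ZMod 9)} (hx : ∀ u ∈ D, red 5 (x u) = u)
    {a b c d : W5} (ha : a ∈ D) (hb : b ∈ D) (hc : c ∈ D) (hd : d ∈ D) (h : a + b = c + d) :
    ev D x (par c d a b) = -(a + b + c + d) - ev D x (par a b c d) := by
  unfold ev
  have h1 : red 5 (∑ u ∈ D, par a b c d u • x u) = 0 := by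
    rw [GoodLift.red_sum hx, par_zero ha hb hc hd h]
  have h2 : red 5 (∑ u ∈ D, par c d a b u • x u) = 0 := by
    rw [GoodLift.red_sum hx, par_zero hc hd ha hb h.symm]
  have h3 := (div3 5).add _ _ h1 h2
  have h4 : ∑ u ∈ D, par a b c d u • x u + ∑ u ∈ D, par c d a b u • x u =
      3 • (x a + x b + x c + x d) := by
    rw [sum_par ha hb hc hd, sum_par hc hd ha hb]
    simp only [smul_add]
    have e : ∀ z : Fin 5 → ZMod 9, 3 • z = z + 2 • z := fun z => succ_nsmul' z 2
    rw [e (x a), e (x b), e (x c), e (x d)]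
    abel
  rw [h4, third_three, map_add, map_add, map_add, hx a ha, hx b hb, hx c hc, hx d hd] at h3
  rw [h3]
  abel

lemma par_act (g : Aff 5) (a b c d : W5) :
    (fun u => par (g.act a) (g.act b) (g.act c) (g.act d) (g.act u)) = par a b c d := by
  funext u
  simp only [par, g.act_injective.eq_iff]

/-- equivariance for automorphisms -/
lemma ev_aut {D : Finset W5} {g : Aff 5} (hg : g.img D = D) {x : W5 → (Fin 5 → ZMod 9)}
    (hx : ∀ u ∈ D, red 5 (x u) = u) {a b c d : W5} (ha : a ∈ D) (hb : b ∈ D) (hc : c ∈ D)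
    (hd : d ∈ D) (h : a + b = c + d) :
    ev D (g.lift x) (par (g.act a) (g.act b) (g.act c) (g.act d)) =
      g.act (ev D x (par a b c d)) := by
  have e := par_act g a b c d
  have h1 := ev_map g hx (par (g.act a) (g.act b) (g.act c) (g.act d))
    (by
      have h6 := par_six ha hb hc hd
      rw [← e] at h6
      exact h6)
    (by
      have h0 := par_zero ha hb hc hd h
      rw [← e] at h0
      exact h0)
  rw [hg, e] at h1
  exact h1

/-- exclusion of a value -/
lemma excl {D : Finset W5} {g : Aff 5} (hg : g.img D = D) {x : W5 → (Fin 5 → ZMod 9)}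
    (hx : GoodLift D x) {a b c d : W5} (ha : a ∈ D) (hb : b ∈ D) (hc : c ∈ D)
    (hd : d ∈ D) (h : a + b = c + d) {e : W5}
    (hP : ∀ y, GoodLift D y → ev D y (par (g.act a) (g.act b) (g.act c) (g.act d)) ≠ e)
    {k : W5} (hk : g.act k = e) : ev D x (par a b c d) ≠ k := by
  intro hek
  have hy := GoodLift.map g hx
  rw [hg] at hy
  apply hP _ hy
  rw [ev_aut hg hx.lift ha hb hc hd h, hek, hk]

/-! ### the base parallelogram -/

/-- the base parallelogram -/
def b0 : W5 → ℕ := par (dec 5) (dec 10) (dec 154) (dec 212)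

lemma mem_cap45 {n : ℕ} (h : n ∈ capCodes) : dec n ∈ cap45 := by
  rw [cap45, List.mem_toFinset, List.mem_map]
  exact ⟨n, h, rfl⟩

lemma b0_sum : dec 5 + dec 10 = dec 154 + dec 212 := by decide +kernel

/-- value `e` is excluded for the base parallelogram -/
def Excl (e : ℕ) : Prop := ∀ y, GoodLift cap45 y → ev cap45 y b0 ≠ dec e

/-- the opposite value -/
lemma Excl.swap {e e' : ℕ} (h : Excl e)
    (he : dec e' = -(dec 5 + dec 10 + dec 154 + dec 212) - dec e) :
    ∀ y, GoodLift cap45 y → ev cap45 y (par (dec 154) (dec 212) (dec 5) (dec 10)) ≠ dec e' := by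
  intro y hy h1
  apply h y hy
  have h5 : dec 5 ∈ cap45 := mem_cap45 (by decide)
  have h10 : dec 10 ∈ cap45 := mem_cap45 (by decide)
  have h154 : dec 154 ∈ cap45 := mem_cap45 (by decide)
  have h212 : dec 212 ∈ cap45 := mem_cap45 (by decide)
  rw [ev_swap hy.lift h5 h10 h154 h212 b0_sum, he] at h1
  exact sub_right_injective h1

end Pool.Agent.H29.EGZ
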