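import Mathlib
import Pool.Agent.H29.EGZ.S.Quad

/-!
# Stages: forbidden values, normalisation
-/

set_option autoImplicit false

namespace Pool.Agent.H29.EGZ

open Finset Matrix

/-- the values in the masks are not attained by the parallelograms of the list
(`(a, b, c, d, F)` : codes of `a + b = c + d`, 243-bit mask of forbidden values) -/
def Forb (x : W5 → (Fin 5 → ZMod 9)) (Q : List (ℕ × ℕ × ℕ × ℕ × ℕ)) : Prop :=
  ∀ p ∈ Q, ∀ k < 243, Nat.testBit p.2.2.2.2 k = true →
    ev cap45 x (par (dec p.1) (dec p.2.1) (dec p.2.2.1) (dec p.2.2.2.1)) ≠ dec k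

/-- normalised good lifts: the digits vanish at the points of the list `B` and are `a7` at `v7` -/
structure Norm (x : W5 → (Fin 5 → ZMod 9)) (B : List ℕ) (v7 a7 : ℕ) : Prop where
  good : GoodLift cap45 x
  base : ∀ p ∈ B, dg x (dec p) = 0
  seven : dg x (dec v7) = dec a7

/-! ### the constant of the base parallelogram -/

lemma kc_b0 : kc cap45 b0 = dec 219 := by
  unfold kc b0
  rw [sum_par (mem_cap45 (by decide)) (mem_cap45 (by decide)) (mem_cap45 (by decide))
    (mem_cap45 (by decide))]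
  decide +kernel

lemma ev_b0 {x : W5 → (Fin 5 → ZMod 9)} (hx : ∀ u ∈ cap45, red 5 (x u) = u) :
    ev cap45 x b0 = -(dec 219 + (dg x (dec 5) + dg x (dec 10) + 2 • dg x (dec 154) +
      2 • dg x (dec 212))) := by
  have h5 : dec 5 ∈ cap45 := mem_cap45 (by decide)
  have h10 : dec 10 ∈ cap45 := mem_cap45 (by decide)
  have h154 : dec 154 ∈ cap45 := mem_cap45 (by decide)
  have h212 : dec 212 ∈ cap45 := mem_cap45 (by decide)
  have h := ev_eq (b := b0) hx (par_zero h5 h10 h154 h212 b0_sum)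
  rw [kc_b0, b0, sum_par h5 h10 h154 h212] at h
  exact h

lemma b0_sum' : ∑ u ∈ cap45, b0 u = 6 :=
  par_six (mem_cap45 (by decide)) (mem_cap45 (by decide)) (mem_cap45 (by decide))
    (mem_cap45 (by decide))

lemma b0_zero : ∑ u ∈ cap45, b0 u • u = 0 :=
  par_zero (mem_cap45 (by decide)) (mem_cap45 (by decide)) (mem_cap45 (by decide))
    (mem_cap45 (by decide)) b0_sum

/-! ### dual functions in codes -/

/-- value of the affine function `(a, c)` at the point with code `p` -/
def dot5 (a c p : ℕ) : ℕ :=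
  Nat.mod (Nat.add (Nat.add (Nat.add (Nat.add (Nat.add
    (Nat.mul (Nat.mod a 3) (Nat.mod p 3))
    (Nat.mul (Nat.mod (Nat.div a 3) 3) (Nat.mod (Nat.div p 3) 3)))
    (Nat.mul (Nat.mod (Nat.div a 9) 3) (Nat.mod (Nat.div p 9) 3)))
    (Nat.mul (Nat.mod (Nat.div a 27) 3) (Nat.mod (Nat.div p 27) 3)))
    (Nat.mul (Nat.mod (Nat.div a 81) 3) (Nat.mod (Nat.div p 81) 3)))
    c) 3

lemma dot5_cast (a c p : ℕ) :
    ((dot5 a c p : ℕ) : ZMod 3) = dotProduct (dec a) (dec p) + (c : ZMod 3) := by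
  have h1 : dot5 a c p = ((a % 3) * (p % 3) + (a / 3 % 3) * (p / 3 % 3) +
    (a / 9 % 3) * (p / 9 % 3) + (a / 27 % 3) * (p / 27 % 3) + (a / 81 % 3) * (p / 81 % 3) + c) % 3 :=
    rfl
  rw [h1, ZMod.natCast_mod]
  simp only [dotProduct, Fin.sum_univ_five]
  rw [dec_0, dec_1, dec_2, dec_3, dec_4, dec_0, dec_1, dec_2, dec_3, dec_4]
  push_cast
  ring

/-- the functions `(a, c)` of the list are dual to the points: entry `i` is `1` at point `i` and `0`
at the other points -/
noncomputable def dualOK (B : List ℕ) (A : List (ℕ × ℕ)) : Bool :=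
  Nat.beq A.length B.length && allL (fun i => allL (fun j =>
    Nat.beq (dot5 (A.getD i (0, 0)).1 (A.getD i (0, 0)).2 (B.getD j 0))
      (Bool.rec 0 1 (Nat.beq i j))) (List.range B.length)) (List.range B.length)

/-- check of the data of a stage: `B` = base, `A` = dual functions, `v7` = fourth point of
the base parallelogram -/
noncomputable def stgOK (B : List ℕ) (A : List (ℕ × ℕ)) (v7 : ℕ) : Bool :=
  dualOK B A && (allL (fun p => memb p capCodes) B &&
    (allL (fun p => memb p B || Nat.beq p v7) [5, 10, 154, 212] && memb v7 [5, 10, 154, 212]))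

lemma zmod3_two (a : W5) : a + 2 • a = 0 := by
  have := three_W5 a
  rw [← this]
  exact (succ_nsmul' a 2).symm

/-- normalisation for a stage -/
theorem exists_norm {x : W5 → (Fin 5 → ZMod 9)} (hx : GoodLift cap45 x) {e v7 a7 : ℕ}
    {B : List ℕ} {A : List (ℕ × ℕ)} (hok : stgOK B A v7 = true)
    (he : ev cap45 x b0 = dec e)
    (h1 : v7 = 5 ∨ v7 = 10 → dec e = -(dec 219 + dec a7))
    (h2 : v7 = 154 ∨ v7 = 212 → dec e = -(dec 219 + 2 • dec a7)) :
    ∃ y, Norm y B v7 a7 ∧ ∀ b : W5 → ℕ, ∑ u ∈ cap45, b u = 6 → ∑ u ∈ cap45, b u • u = 0 →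
        ev cap45 y b = ev cap45 x b := by
  simp only [stgOK, dualOK, Bool.and_eq_true, allL_iff, List.mem_range, Bool.or_eq_true,
    memb_iff] at hok
  obtain ⟨⟨hlen, hdual⟩, hmem, hq, hv7⟩ := hok
  obtain ⟨y, hy, hy0, hyev⟩ := hx.normalise (m := B.length) (fun i => dec (B.getD i 0))
    (by
      intro i
      apply mem_cap45
      apply hmem
      rw [List.getD_eq_getElem _ _ i.isLt]
      exact List.getElem_mem _)
    (fun i => dec (A.getD i (0, 0)).1) (fun i => ((A.getD i (0, 0)).2 : ZMod 3))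
    (by
      intro i j
      have h3 := hdual i i.isLt j j.isLt
      have h4 := Nat.eq_of_beq_eq_true h3
      rw [← dot5_cast, h4, beq_decide]
      by_cases hij : i = j
      · subst hij
        simp
      · have : (i : ℕ) ≠ j := fun h => hij (Fin.ext h)
        simp [hij, this])
  have hbase : ∀ p ∈ B, dg y (dec p) = 0 := by
    intro p hp
    obtain ⟨i, hi, rfl⟩ := List.getElem_of_mem hp
    have h5 := hy0 ⟨i, hi⟩
    simp only [List.getD_eq_getElem _ _ hi] at h5
    exact h5
  refine ⟨y, ⟨hy, hbase, ?_⟩, hyev⟩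
  have hev := ev_b0 hy.lift
  rw [hyev b0 b0_sum' b0_zero, he] at hev
  have hz : ∀ p ∈ ([5, 10, 154, 212] : List ℕ), p ≠ v7 → dg y (dec p) = 0 := by
    intro p hp hne
    rcases hq p hp with h | h
    · exact hbase p h
    · exact absurd (Nat.eq_of_beq_eq_true h) hne
  have hv : v7 = 5 ∨ v7 = 10 ∨ v7 = 154 ∨ v7 = 212 := by
    simpa using hv7
  have hdouble : ∀ a b : W5, 2 • a = 2 • b → a = b := by
    intro a b h
    have ha := zmod3_two a
    have hb := zmod3_two b
    rw [h] at ha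
    exact add_right_cancel (ha.trans hb.symm)
  rcases hv with rfl | rfl | rfl | rfl
  · rw [hz 10 (by simp) (by norm_num), hz 154 (by simp) (by norm_num),
      hz 212 (by simp) (by norm_num), h1 (Or.inl rfl)] at hev
    simpa using hev.symm
  · rw [hz 5 (by simp) (by norm_num), hz 154 (by simp) (by norm_num),
      hz 212 (by simp) (by norm_num), h1 (Or.inr rfl)] at hev
    simpa using hev.symm
  · rw [hz 5 (by simp) (by norm_num), hz 10 (by simp) (by norm_num),
      hz 212 (by simp) (by norm_num), h2 (Or.inl rfl)] at hev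
    apply hdouble
    simpa using hev.symm
  · rw [hz 5 (by simp) (by norm_num), hz 10 (by simp) (by norm_num),
      hz 154 (by simp) (by norm_num), h2 (Or.inr rfl)] at hev
    apply hdouble
    simpa using hev.symm

/-- the values of parallelograms are not changed by the normalisation -/
lemma Forb.congr {x y : W5 → (Fin 5 → ZMod 9)} {Q : List (ℕ × ℕ × ℕ × ℕ × ℕ)} (h : Forb x Q)
    (hQ : ∀ p ∈ Q, dec p.1 ∈ cap45 ∧ dec p.2.1 ∈ cap45 ∧ dec p.2.2.1 ∈ cap45 ∧
      dec p.2.2.2.1 ∈ cap45 ∧ dec p.1 + dec p.2.1 = dec p.2.2.1 + dec p.2.2.2.1)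
    (hev : ∀ b : W5 → ℕ, ∑ u ∈ cap45, b u = 6 → ∑ u ∈ cap45, b u • u = 0 →
        ev cap45 y b = ev cap45 x b) : Forb y Q := by
  intro p hp k hk hb
  obtain ⟨h1, h2, h3, h4, h5⟩ := hQ p hp
  rw [hev _ (par_six h1 h2 h3 h4) (par_zero h1 h2 h3 h4 h5)]
  exact h p hp k hk hb

end Pool.Agent.H29.EGZ
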