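import Mathlib
import Pool.Agent.H29.EGZ.S.Stage

/-!
# Exclusion tables and the induction over the stages
-/

set_option autoImplicit false

namespace Pool.Agent.H29.EGZ

open Finset Matrix

/-- entry of a table with 8 bits per entry -/
def look8 (t s : ℕ) : ℕ := Nat.land (Nat.shiftRight t (Nat.mul 8 s)) 255

/-- data of a parallelogram : codes of the points `a + b = c + d`, four automorphisms `(M, N, t)` of
the cap which send `(a, b, c, d)` to `(A, B, C, D)`, `(B, A, D, C)`, `(C, D, A, B)`, `(D, C, B, A)`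
(the base parallelogram), table of the excluded values -/
structure QD where
  a : ℕ
  b : ℕ
  c : ℕ
  d : ℕ
  m0 : ℕ × ℕ × ℕ
  m1 : ℕ × ℕ × ℕ
  m2 : ℕ × ℕ × ℕ
  m3 : ℕ × ℕ × ℕ
  T : ℕ

/-- automorphism of the cap -/
noncomputable def autOK (m : ℕ × ℕ × ℕ) : Bool :=
  mulOK m.1 m.2.1 && allL (fun c => memb (act5 m.1 m.2.2 c) capCodes) capCodes

/-- images of four points -/
noncomputable def img4 (m : ℕ × ℕ × ℕ) (a b c d A B C D : ℕ) : Bool :=
  (Nat.beq (act5 m.1 m.2.2 a) A && Nat.beq (act5 m.1 m.2.2 b) B) &&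
    (Nat.beq (act5 m.1 m.2.2 c) C && Nat.beq (act5 m.1 m.2.2 d) D)

/-- the table entry for the value `k` : class number -/
def tmin (q : QD) (k : ℕ) : ℕ := Nat.land (look8 q.T k) 63

/-- check of one table entry -/
noncomputable def chkK (E1 E2 : ℕ) (q : QD) (k : ℕ) : Bool :=
  force (look8 q.T k) fun v => force (Nat.land v 63) fun s =>
    Nat.beq s 63 || (Nat.blt s 49 &&
    (Bool.rec
      (Bool.rec
        (Bool.rec (Nat.beq (act5 q.m3.1 q.m3.2.2 k) (look8 E2 s))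
          (Nat.beq (act5 q.m2.1 q.m2.2.2 k) (look8 E2 s)) (Nat.beq (Nat.shiftRight v 6) 2))
        (Nat.beq (act5 q.m1.1 q.m1.2.2 k) (look8 E1 s)) (Nat.beq (Nat.shiftRight v 6) 1))
      (Nat.beq (act5 q.m0.1 q.m0.2.2 k) (look8 E1 s)) (Nat.beq (Nat.shiftRight v 6) 0)))

/-- check of the data of a parallelogram -/
noncomputable def chkQ (E1 E2 : ℕ) (q : QD) : Bool :=
  ((memb q.a capCodes && memb q.b capCodes) && (memb q.c capCodes && memb q.d capCodes)) &&
  (((autOK q.m0 && autOK q.m1) && (autOK q.m2 && autOK q.m3)) &&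
  (((img4 q.m0 q.a q.b q.c q.d 5 10 154 212 && img4 q.m1 q.a q.b q.c q.d 10 5 212 154) &&
    (img4 q.m2 q.a q.b q.c q.d 154 212 5 10 && img4 q.m3 q.a q.b q.c q.d 212 154 10 5)) &&
  allL (chkK E1 E2 q) (List.range 243)))

lemma autOK_spec {m : ℕ × ℕ × ℕ} (h : autOK m = true) :
    ∃ hm : mulOK m.1 m.2.1 = true, (affOf m.1 m.2.1 m.2.2 hm).img cap45 = cap45 := by
  rw [autOK, Bool.and_eq_true, allL_iff] at h
  refine ⟨h.1, ?_⟩
  apply Finset.eq_of_subset_of_card_le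
  · intro w hw
    simp only [Aff.img, Finset.mem_map, Function.Embedding.coeFn_mk] at hw
    obtain ⟨u, hu, rfl⟩ := hw
    rw [cap45, List.mem_toFinset, List.mem_map] at hu
    obtain ⟨n, hn, rfl⟩ := hu
    rw [affOf_act]
    apply mem_cap45
    exact (memb_iff _ _).mp (h.2 n hn)
  · rw [Aff.card_img]

lemma img4_spec {m : ℕ × ℕ × ℕ} {a b c d A B C D : ℕ} (h : img4 m a b c d A B C D = true)
    (hm : mulOK m.1 m.2.1 = true) :
    (affOf m.1 m.2.1 m.2.2 hm).act (dec a) = dec A ∧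
    (affOf m.1 m.2.1 m.2.2 hm).act (dec b) = dec B ∧
    (affOf m.1 m.2.1 m.2.2 hm).act (dec c) = dec C ∧
    (affOf m.1 m.2.1 m.2.2 hm).act (dec d) = dec D := by
  rw [img4, Bool.and_eq_true, Bool.and_eq_true, Bool.and_eq_true] at h
  obtain ⟨⟨h1, h2⟩, h3, h4⟩ := h
  rw [affOf_act, affOf_act, affOf_act, affOf_act, Nat.eq_of_beq_eq_true h1,
    Nat.eq_of_beq_eq_true h2, Nat.eq_of_beq_eq_true h3, Nat.eq_of_beq_eq_true h4]
  exact ⟨rfl, rfl, rfl, rfl⟩

/-- what is proved about a checked parallelogram -/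
structure QOK (q : QD) : Prop where
  ha : dec q.a ∈ cap45
  hb : dec q.b ∈ cap45
  hc : dec q.c ∈ cap45
  hd : dec q.d ∈ cap45
  sum : dec q.a + dec q.b = dec q.c + dec q.d

lemma act_sum (g : Aff 5) {a b c d : W5} (h : g.act a + g.act b = g.act c + g.act d) :
    a + b = c + d := by
  have h1 : g.M *ᵥ (a + b) = g.M *ᵥ (c + d) := by
    rw [mulVec_add, mulVec_add]
    have h2 : (g.M *ᵥ a + g.t) + (g.M *ᵥ b + g.t) = (g.M *ᵥ c + g.t) + (g.M *ᵥ d + g.t) := h
    have h3 : (g.M *ᵥ a + g.M *ᵥ b) + (g.t + g.t) = (g.M *ᵥ c + g.M *ᵥ d) + (g.t + g.t) := by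
      rw [add_add_add_comm, h2, add_add_add_comm]
    exact add_right_cancel h3
  have h2 : g.N *ᵥ (g.M *ᵥ (a + b)) = g.N *ᵥ (g.M *ᵥ (c + d)) := by rw [h1]
  rwa [mulVec_mulVec, mulVec_mulVec, g.NM, one_mulVec, one_mulVec] at h2

lemma qok {E1 E2 : ℕ} {q : QD} (h : chkQ E1 E2 q = true) : QOK q := by
  simp only [chkQ, Bool.and_eq_true, memb_iff] at h
  obtain ⟨⟨⟨ha, hb⟩, hc, hd⟩, ⟨⟨h0, _⟩, _, _⟩, ⟨⟨i0, _⟩, _, _⟩, _⟩ := h
  refine ⟨mem_cap45 ha, mem_cap45 hb, mem_cap45 hc, mem_cap45 hd, ?_⟩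
  obtain ⟨hm, _⟩ := autOK_spec h0
  obtain ⟨j1, j2, j3, j4⟩ := img4_spec i0 hm
  apply act_sum (affOf q.m0.1 q.m0.2.1 q.m0.2.2 hm)
  rw [j1, j2, j3, j4]
  exact b0_sum

theorem excl_q {E1 E2 : ℕ} (hsw : ∀ s < 49, dec (look8 E2 s) =
      -(dec 5 + dec 10 + dec 154 + dec 212) - dec (look8 E1 s))
    {q : QD} (hq : chkQ E1 E2 q = true) {k : ℕ} (hk : k < 243) (hs : tmin q k < 49)
    (hP : Excl (look8 E1 (tmin q k))) {x : W5 → (Fin 5 → ZMod 9)} (hx : GoodLift cap45 x) :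
    ev cap45 x (par (dec q.a) (dec q.b) (dec q.c) (dec q.d)) ≠ dec k := by
  have hok := qok hq
  simp only [chkQ, Bool.and_eq_true, memb_iff] at hq
  obtain ⟨_, ⟨⟨h0, h1⟩, h2, h3⟩, ⟨⟨i0, i1⟩, i2, i3⟩, hT⟩ := hq
  rw [allL_iff] at hT
  have hk' := hT k (List.mem_range.mpr hk)
  rw [chkK, force_eq, force_eq] at hk'
  have e : Nat.land (look8 q.T k) 63 = tmin q k := rfl
  rw [e] at hk'
  have hne : Nat.beq (tmin q k) 63 = false := by
    rw [beq_decide]
    simp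
    omega
  rw [hne, Bool.false_or, Bool.and_eq_true] at hk'
  obtain ⟨_, hk2⟩ := hk'
  have hP2 := hP.swap (hsw _ hs)
  obtain ⟨hm0, g0⟩ := autOK_spec h0
  obtain ⟨hm1, g1⟩ := autOK_spec h1
  obtain ⟨hm2, g2⟩ := autOK_spec h2
  obtain ⟨hm3, g3⟩ := autOK_spec h3
  cases hv0 : Nat.beq (Nat.shiftRight (look8 q.T k) 6) 0 with
  | true =>
    rw [hv0] at hk2
    obtain ⟨j1, j2, j3, j4⟩ := img4_spec i0 hm0
    refine excl g0 hx hok.ha hok.hb hok.hc hok.hd hok.sum (e := dec (look8 E1 (tmin q k))) ?_ ?_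
    · intro y hy
      rw [j1, j2, j3, j4]
      exact hP y hy
    · rw [affOf_act]
      exact congrArg dec (Nat.eq_of_beq_eq_true hk2)
  | false =>
    rw [hv0] at hk2
    cases hv1 : Nat.beq (Nat.shiftRight (look8 q.T k) 6) 1 with
    | true =>
      rw [hv1] at hk2
      obtain ⟨j1, j2, j3, j4⟩ := img4_spec i1 hm1
      refine excl g1 hx hok.ha hok.hb hok.hc hok.hd hok.sum (e := dec (look8 E1 (tmin q k))) ?_ ?_
      · intro y hy
        rw [j1, j2, j3, j4, par_comm]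
        exact hP y hy
      · rw [affOf_act]
        exact congrArg dec (Nat.eq_of_beq_eq_true hk2)
    | false =>
      rw [hv1] at hk2
      cases hv2 : Nat.beq (Nat.shiftRight (look8 q.T k) 6) 2 with
      | true =>
        rw [hv2] at hk2
        obtain ⟨j1, j2, j3, j4⟩ := img4_spec i2 hm2
        refine excl g2 hx hok.ha hok.hb hok.hc hok.hd hok.sum
          (e := dec (look8 E2 (tmin q k))) ?_ ?_
        · intro y hy
          rw [j1, j2, j3, j4]
          exact hP2 y hy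
        · rw [affOf_act]
          exact congrArg dec (Nat.eq_of_beq_eq_true hk2)
      | false =>
        rw [hv2] at hk2
        obtain ⟨j1, j2, j3, j4⟩ := img4_spec i3 hm3
        refine excl g3 hx hok.ha hok.hb hok.hc hok.hd hok.sum
          (e := dec (look8 E2 (tmin q k))) ?_ ?_
        · intro y hy
          rw [j1, j2, j3, j4, par_comm]
          exact hP2 y hy
        · rw [affOf_act]
          exact congrArg dec (Nat.eq_of_beq_eq_true hk2)

/-- the forbidden values of a stage come from earlier classes -/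
noncomputable def stgQ (QT : List QD) (s : ℕ) (Q : List (ℕ × ℕ × ℕ × ℕ × ℕ)) : Bool :=
  allL (fun p => anyL (fun q =>
    ((Nat.beq q.a p.1 && Nat.beq q.b p.2.1) && (Nat.beq q.c p.2.2.1 && Nat.beq q.d p.2.2.2.1)) &&
    allL (fun k => Bool.rec true (Nat.blt (tmin q k) s) (tb p.2.2.2.2 k)) (List.range 243)) QT) Q

theorem forb_of {E1 E2 : ℕ} (hsw : ∀ s < 49, dec (look8 E2 s) =
      -(dec 5 + dec 10 + dec 154 + dec 212) - dec (look8 E1 s))
    {QT : List QD} (hQT : ∀ q ∈ QT, chkQ E1 E2 q = true) {s : ℕ} (hs : s ≤ 49)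
    {Q : List (ℕ × ℕ × ℕ × ℕ × ℕ)} (h : stgQ QT s Q = true)
    (hP : ∀ s' < s, Excl (look8 E1 s')) {x : W5 → (Fin 5 → ZMod 9)} (hx : GoodLift cap45 x) :
    Forb x Q ∧ ∀ p ∈ Q, dec p.1 ∈ cap45 ∧ dec p.2.1 ∈ cap45 ∧ dec p.2.2.1 ∈ cap45 ∧
      dec p.2.2.2.1 ∈ cap45 ∧ dec p.1 + dec p.2.1 = dec p.2.2.1 + dec p.2.2.2.1 := by
  rw [stgQ, allL_iff] at h
  have key : ∀ p ∈ Q, ∃ q ∈ QT, (q.a = p.1 ∧ q.b = p.2.1 ∧ q.c = p.2.2.1 ∧ q.d = p.2.2.2.1) ∧
      ∀ k < 243, p.2.2.2.2.testBit k = true → tmin q k < s := by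
    intro p hp
    have h1 := h p hp
    rw [anyL_iff] at h1
    obtain ⟨q, hq, h2⟩ := h1
    rw [Bool.and_eq_true, Bool.and_eq_true, Bool.and_eq_true, Bool.and_eq_true, allL_iff] at h2
    obtain ⟨⟨⟨e1, e2⟩, e3, e4⟩, h3⟩ := h2
    refine ⟨q, hq, ⟨Nat.eq_of_beq_eq_true e1, Nat.eq_of_beq_eq_true e2,
      Nat.eq_of_beq_eq_true e3, Nat.eq_of_beq_eq_true e4⟩, ?_⟩
    intro k hk hb
    have h4 := h3 k (List.mem_range.mpr hk)
    have h5 := of_rec_true h4 (by rw [tb_iff, hb])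
    exact Nat.blt_eq.mp h5
  constructor
  · intro p hp k hk hb
    obtain ⟨q, hq, ⟨e1, e2, e3, e4⟩, h3⟩ := key p hp
    have h4 := h3 k hk hb
    rw [← e1, ← e2, ← e3, ← e4]
    exact excl_q hsw (hQT q hq) hk (by omega) (hP _ h4) hx
  · intro p hp
    obtain ⟨q, hq, ⟨e1, e2, e3, e4⟩, _⟩ := key p hp
    have hok := qok (hQT q hq)
    rw [← e1, ← e2, ← e3, ← e4]
    exact ⟨hok.ha, hok.hb, hok.hc, hok.hd, hok.sum⟩

/-- one stage of the induction -/
theorem stage_step {E1 E2 : ℕ} (hsw : ∀ s < 49, dec (look8 E2 s) =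
      -(dec 5 + dec 10 + dec 154 + dec 212) - dec (look8 E1 s))
    {QT : List QD} (hQT : ∀ q ∈ QT, chkQ E1 E2 q = true) {s : ℕ} (hs : s < 49)
    {Q : List (ℕ × ℕ × ℕ × ℕ × ℕ)} (h : stgQ QT s Q = true)
    {B : List ℕ} {A : List (ℕ × ℕ)} {v7 a7 : ℕ} (hok : stgOK B A v7 = true)
    (h1 : v7 = 5 ∨ v7 = 10 → dec (look8 E1 s) = -(dec 219 + dec a7))
    (h2 : v7 = 154 ∨ v7 = 212 → dec (look8 E1 s) = -(dec 219 + 2 • dec a7))
    (hstg : ∀ y, Norm y B v7 a7 → Forb y Q → False)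
    (hP : ∀ s' < s, Excl (look8 E1 s')) : Excl (look8 E1 s) := by
  intro x hx he
  obtain ⟨hF, hQ⟩ := forb_of hsw hQT hs.le h hP hx
  obtain ⟨y, hy, hev⟩ := exists_norm hx hok he h1 h2
  exact hstg y hy (hF.congr hQ hev)

/-! ### the final covering -/

/-- the opposite value of the base parallelogram -/
def opp (k : ℕ) : ℕ := act5 565634978282 12 k

lemma mat5_opp : mat5 565634978282 = -1 := by decide +kernel

lemma dec_12 : dec 12 = -(dec 5 + dec 10 + dec 154 + dec 212) := by decide +kernel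

lemma opp_spec (k : ℕ) : dec (opp k) = -(dec 5 + dec 10 + dec 154 + dec 212) - dec k := by
  rw [opp, dec_act5, mat5_opp, ← dec_12, neg_mulVec, one_mulVec]
  abel

/-- all the possible values of the base parallelogram are in the table -/
noncomputable def covOK (q : QD) : Bool :=
  allL (fun k => memb k capCodes || (memb (opp k) capCodes || Nat.blt (tmin q k) 49))
    (List.range 243)

/-- the cap has no good lift -/
theorem no_lift {E1 E2 : ℕ} (hsw : ∀ s < 49, dec (look8 E2 s) =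
      -(dec 5 + dec 10 + dec 154 + dec 212) - dec (look8 E1 s))
    {q : QD} (hq : chkQ E1 E2 q = true) (hcov : covOK q = true)
    (hqa : q.a = 5) (hqb : q.b = 10) (hqc : q.c = 154) (hqd : q.d = 212)
    (hP : ∀ s < 49, Excl (look8 E1 s)) (x : W5 → (Fin 5 → ZMod 9)) : ¬ GoodLift cap45 x := by
  intro hx
  have h5 : dec 5 ∈ cap45 := mem_cap45 (by decide)
  have h10 : dec 10 ∈ cap45 := mem_cap45 (by decide)
  have h154 : dec 154 ∈ cap45 := mem_cap45 (by decide)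
  have h212 : dec 212 ∈ cap45 := mem_cap45 (by decide)
  have n1 : dec 5 ≠ dec 10 := fun h => absurd (dec_inj (by norm_num) (by norm_num) h) (by norm_num)
  have n2 : dec 154 ≠ dec 212 :=
    fun h => absurd (dec_inj (by norm_num) (by norm_num) h) (by norm_num)
  have hv1 := hx.ev_notMem (par_rel h5 h10 h154 h212 b0_sum n1 n2)
  have hv2 := hx.ev_notMem (par_rel h154 h212 h5 h10 b0_sum.symm n2 n1)
  rw [ev_swap hx.lift h5 h10 h154 h212 b0_sum] at hv2
  set v := ev cap45 x (par (dec 5) (dec 10) (dec 154) (dec 212)) with hv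
  have hk := enc_lt v
  have hdv : dec (enc v) = v := dec_enc v
  rw [covOK, allL_iff] at hcov
  have h1 := hcov (enc v) (List.mem_range.mpr hk)
  rw [Bool.or_eq_true, Bool.or_eq_true, memb_iff, memb_iff] at h1
  rcases h1 with h | h | h
  · apply hv1
    rw [← hdv]
    exact mem_cap45 h
  · apply hv2
    rw [← hdv, ← opp_spec]
    exact mem_cap45 h
  · have h2 : tmin q (enc v) < 49 := Nat.blt_eq.mp h
    have h3 := excl_q hsw hq hk h2 (hP _ h2) hx
    rw [hqa, hqb, hqc, hqd, hdv] at h3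
    exact h3 rfl

end Pool.Agent.H29.EGZ
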