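import Mathlib
import Pool.Agent.H29.EGZ.B.Classify
import Pool.Agent.H94.Cap5.Level1
import Pool.Agent.H29.EGZ.S.Excl

/-!
# Reduction of the main theorem to the standard cap
-/

set_option autoImplicit false

namespace Pool.Agent.H29.EGZ

open Finset

/-- every 45-cap is affinely equivalent to the standard one -/
theorem cap45_unique {D : Finset W5} (hD : IsCap D) (h45 : D.card = 45) :
    ∃ g : Aff 5, g.img D = cap45 :=
  classify hD h45 (Pool.Agent.H94.Cap5.types45 hD h45)

/-- if the standard cap has no good lift, the conjectured formula fails -/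
theorem main_of (hno : ∀ x : W5 → (Fin 5 → ZMod 9), ¬ GoodLift cap45 x) :
    ¬ (∀ n : ℕ, Odd n → 3 ≤ n → ∀ r : ℕ,
      sInf {l : ℕ | ∀ f : Fin l → (Fin r → ZMod n), ∃ I : Finset (Fin l),
          I.card = AddMonoid.exponent (Fin r → ZMod n) ∧ ∑ i ∈ I, f i = 0}
        = (sInf {l : ℕ | ∀ S : Finset (Fin r → ZMod 3), l ≤ S.card →
              ∃ T ⊆ S, T.card = AddMonoid.exponent (Fin r → ZMod 3) ∧ ∑ x ∈ T, x = 0} - 1)
            * (n - 1) + 1) := by
  intro h
  have h9 := h 9 (by decide) (by norm_num) 5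
  obtain ⟨D, h45, hD, x, hx⟩ := exists_goodLift h9
  obtain ⟨g, hg⟩ := cap45_unique hD h45
  have hy := GoodLift.map g hx
  rw [hg] at hy
  exact hno _ hy

end Pool.Agent.H29.EGZ
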