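import Pool.Agent.H29.EGZ.S.QS

/-!
# Data of the stages: base points, dual functions, seventh point and its digit
-/

set_option autoImplicit false

namespace Pool.Agent.H29.EGZ

lemma ok0 : stgOK [154, 5, 10, 207, 238] [(86, 1), (219, 0), (97, 2), (221, 1), (108, 0)] 212 = true ∧ stgQ qtAll 0 Qs0 = true := by
  decide +kernel

lemma ok1 : stgOK [10, 154, 212, 178, 119] [(23, 0), (192, 0), (38, 0), (44, 0), (211, 0)] 5 = true ∧ stgQ qtAll 1 Qs1 = true := by
  decide +kernel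

lemma ok2 : stgOK [154, 212, 10, 207, 13] [(153, 1), (173, 0), (35, 2), (145, 1), (103, 0)] 5 = true ∧ stgQ qtAll 2 Qs2 = true := by
  decide +kernel

lemma ok3 : stgOK [10, 5, 154, 119, 13] [(26, 0), (38, 0), (189, 0), (216, 0), (76, 0)] 212 = true ∧ stgQ qtAll 3 Qs3 = true := by
  decide +kernel

lemma ok4 : stgOK [154, 212, 10, 13, 207] [(153, 1), (173, 0), (35, 2), (103, 0), (145, 1)] 5 = true ∧ stgQ qtAll 4 Qs4 = true := by
  decide +kernel

lemma ok5 : stgOK [212, 154, 5, 223, 23] [(139, 0), (4, 0), (124, 0), (108, 0), (211, 0)] 10 = true ∧ stgQ qtAll 5 Qs5 = true := by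
  decide +kernel

lemma ok6 : stgOK [10, 154, 5, 23, 53] [(139, 0), (81, 0), (173, 0), (211, 0), (108, 0)] 212 = true ∧ stgQ qtAll 6 Qs6 = true := by
  decide +kernel

lemma ok7 : stgOK [5, 212, 154, 238, 140] [(183, 0), (134, 0), (112, 0), (108, 0), (211, 0)] 10 = true ∧ stgQ qtAll 7 Qs7 = true := by
  decide +kernel

lemma ok8 : stgOK [5, 10, 212, 198, 140] [(187, 0), (4, 0), (240, 1), (221, 1), (209, 2)] 154 = true ∧ stgQ qtAll 8 Qs8 = true := by
  decide +kernel

lemma ok9 : stgOK [10, 212, 154, 169, 50] [(65, 1), (219, 0), (55, 2), (7, 2), (115, 2)] 5 = true ∧ stgQ qtAll 9 Qs9 = true := by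
  decide +kernel

lemma ok10 : stgOK [5, 212, 154, 83, 145] [(191, 0), (139, 0), (36, 0), (108, 0), (103, 0)] 10 = true ∧ stgQ qtAll 10 Qs10 = true := by
  decide +kernel

lemma ok11 : stgOK [10, 5, 212, 125, 208] [(171, 0), (52, 0), (206, 0), (216, 0), (211, 0)] 154 = true ∧ stgQ qtAll 11 Qs11 = true := by
  decide +kernel

lemma ok12 : stgOK [154, 5, 212, 43, 208] [(144, 0), (16, 0), (134, 0), (108, 0), (211, 0)] 10 = true ∧ stgQ qtAll 12 Qs12 = true := by
  decide +kernel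

lemma ok13 : stgOK [10, 154, 212, 223, 7] [(200, 1), (190, 2), (1, 2), (108, 0), (223, 2)] 5 = true ∧ stgQ qtAll 13 Qs13 = true := by
  decide +kernel

lemma ok14 : stgOK [10, 212, 154, 39, 145] [(163, 0), (219, 0), (227, 0), (108, 0), (103, 0)] 5 = true ∧ stgQ qtAll 14 Qs14 = true := by
  decide +kernel

lemma ok15 : stgOK [10, 5, 154, 121, 23] [(31, 0), (146, 0), (189, 0), (216, 0), (76, 0)] 212 = true ∧ stgQ qtAll 15 Qs15 = true := by
  decide +kernel

lemma ok16 : stgOK [5, 212, 154, 208, 12] [(16, 0), (235, 1), (149, 1), (103, 0), (115, 2)] 10 = true ∧ stgQ qtAll 16 Qs16 = true := by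
  decide +kernel

lemma ok17 : stgOK [154, 5, 10, 134, 8] [(189, 0), (79, 0), (90, 0), (216, 0), (103, 0)] 212 = true ∧ stgQ qtAll 17 Qs17 = true := by
  decide +kernel

lemma ok18 : stgOK [10, 154, 5, 50, 13] [(242, 0), (81, 0), (173, 0), (108, 0), (76, 0)] 212 = true ∧ stgQ qtAll 18 Qs18 = true := by
  decide +kernel

lemma ok19 : stgOK [212, 5, 154, 140, 162] [(26, 0), (48, 0), (4, 0), (76, 0), (216, 0)] 10 = true ∧ stgQ qtAll 19 Qs19 = true := by
  decide +kernel

lemma ok20 : stgOK [212, 5, 10, 207, 23] [(34, 2), (229, 1), (4, 0), (221, 1), (103, 0)] 154 = true ∧ stgQ qtAll 20 Qs20 = true := by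
  decide +kernel

lemma ok21 : stgOK [5, 10, 212, 145, 125] [(227, 0), (171, 0), (22, 0), (211, 0), (216, 0)] 154 = true ∧ stgQ qtAll 21 Qs21 = true := by
  decide +kernel

lemma ok22 : stgOK [212, 10, 154, 7, 62] [(109, 2), (65, 1), (190, 2), (223, 2), (216, 0)] 5 = true ∧ stgQ qtAll 22 Qs22 = true := by
  decide +kernel

lemma ok23 : stgOK [212, 5, 10, 140, 223] [(22, 0), (187, 0), (4, 0), (211, 0), (108, 0)] 154 = true ∧ stgQ qtAll 23 Qs23 = true := by
  decide +kernel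

lemma ok24 : stgOK [154, 212, 5, 208, 178] [(144, 0), (242, 0), (16, 0), (211, 0), (216, 0)] 10 = true ∧ stgQ qtAll 24 Qs24 = true := by
  decide +kernel

lemma ok25 : stgOK [5, 154, 10, 62, 161] [(8, 1), (61, 2), (90, 0), (216, 0), (113, 1)] 212 = true ∧ stgQ qtAll 25 Qs25 = true := by
  decide +kernel

lemma ok26 : stgOK [5, 154, 212, 145, 164] [(83, 0), (36, 0), (166, 0), (211, 0), (216, 0)] 10 = true ∧ stgQ qtAll 26 Qs26 = true := by
  decide +kernel

lemma ok27 : stgOK [212, 154, 10, 164, 43] [(224, 1), (82, 2), (94, 2), (113, 1), (221, 1)] 5 = true ∧ stgQ qtAll 27 Qs27 = true := by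
  decide +kernel

lemma ok28 : stgOK [5, 154, 212, 62, 145] [(191, 0), (171, 0), (31, 0), (216, 0), (211, 0)] 10 = true ∧ stgQ qtAll 28 Qs28 = true := by
  decide +kernel

lemma ok29 : stgOK [5, 154, 212, 174, 172] [(188, 1), (144, 0), (90, 0), (7, 2), (221, 1)] 10 = true ∧ stgQ qtAll 29 Qs29 = true := by
  decide +kernel

lemma ok30 : stgOK [154, 10, 212, 208, 125] [(52, 0), (239, 0), (219, 0), (211, 0), (216, 0)] 5 = true ∧ stgQ qtAll 30 Qs30 = true := by
  decide +kernel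

lemma ok31 : stgOK [5, 10, 154, 13, 223] [(173, 0), (26, 0), (189, 0), (211, 0), (108, 0)] 212 = true ∧ stgQ qtAll 31 Qs31 = true := by
  decide +kernel

lemma ok32 : stgOK [5, 154, 212, 26, 208] [(225, 1), (149, 1), (26, 0), (221, 1), (78, 1)] 10 = true ∧ stgQ qtAll 32 Qs32 = true := by
  decide +kernel

lemma ok33 : stgOK [5, 154, 212, 208, 62] [(16, 0), (171, 0), (242, 0), (211, 0), (216, 0)] 10 = true ∧ stgQ qtAll 33 Qs33 = true := by
  decide +kernel

lemma ok34 : stgOK [212, 10, 5, 145, 110] [(238, 0), (144, 0), (119, 0), (103, 0), (216, 0)] 154 = true ∧ stgQ qtAll 34 Qs34 = true := by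
  decide +kernel

lemma ok35 : stgOK [10, 5, 154, 23, 178] [(31, 0), (38, 0), (54, 0), (211, 0), (216, 0)] 212 = true ∧ stgQ qtAll 35 Qs35 = true := by
  decide +kernel

lemma ok36 : stgOK [154, 5, 10, 13, 43] [(81, 0), (173, 0), (134, 0), (211, 0), (108, 0)] 212 = true ∧ stgQ qtAll 36 Qs36 = true := by
  decide +kernel

lemma ok37 : stgOK [5, 154, 212, 223, 23] [(124, 0), (4, 0), (139, 0), (108, 0), (211, 0)] 10 = true ∧ stgQ qtAll 37 Qs37 = true := by
  decide +kernel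

lemma ok38 : stgOK [212, 10, 154, 121, 23] [(146, 0), (239, 0), (11, 0), (216, 0), (76, 0)] 5 = true ∧ stgQ qtAll 38 Qs38 = true := by
  decide +kernel

lemma ok39 : stgOK [212, 154, 5, 140, 43] [(134, 0), (4, 0), (156, 0), (211, 0), (108, 0)] 10 = true ∧ stgQ qtAll 39 Qs39 = true := by
  decide +kernel

lemma ok40 : stgOK [212, 154, 10, 23, 162] [(38, 0), (11, 0), (23, 0), (76, 0), (216, 0)] 5 = true ∧ stgQ qtAll 40 Qs40 = true := by
  decide +kernel

lemma ok41 : stgOK [10, 154, 212, 145, 124] [(163, 0), (11, 0), (219, 0), (103, 0), (216, 0)] 5 = true ∧ stgQ qtAll 41 Qs41 = true := by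
  decide +kernel

lemma ok42 : stgOK [212, 154, 10, 153, 140] [(42, 2), (187, 0), (96, 0), (221, 1), (78, 1)] 5 = true ∧ stgQ qtAll 42 Qs42 = true := by
  decide +kernel

lemma ok43 : stgOK [10, 212, 5, 207, 223] [(144, 0), (34, 2), (89, 1), (113, 1), (108, 0)] 154 = true ∧ stgQ qtAll 43 Qs43 = true := by
  decide +kernel

lemma ok44 : stgOK [5, 10, 154, 172, 12] [(8, 1), (95, 1), (54, 0), (216, 0), (7, 2)] 212 = true ∧ stgQ qtAll 44 Qs44 = true := by
  decide +kernel

lemma ok45 : stgOK [154, 212, 5, 164, 140] [(220, 0), (134, 0), (48, 0), (216, 0), (211, 0)] 10 = true ∧ stgQ qtAll 45 Qs45 = true := by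
  decide +kernel

lemma ok46 : stgOK [5, 154, 212, 140, 223] [(183, 0), (4, 0), (26, 0), (211, 0), (108, 0)] 10 = true ∧ stgQ qtAll 46 Qs46 = true := by
  decide +kernel

lemma ok47 : stgOK [5, 10, 212, 207, 26] [(62, 1), (107, 0), (201, 2), (78, 1), (179, 0)] 154 = true ∧ stgQ qtAll 47 Qs47 = true := by
  decide +kernel

lemma ok48 : stgOK [10, 154, 212, 161, 52] [(67, 2), (192, 0), (224, 1), (113, 1), (108, 0)] 5 = true ∧ stgQ qtAll 48 Qs48 = true := by
  decide +kernel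

end Pool.Agent.H29.EGZ
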